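import Mathlib
import Pool.Agent.Y285.WG.Abs
import Pool.Agent.Y285.WG.Lp

/-!
# The WCGA is near best, with error constant `1 + ε`, for all uniformly bounded orthogonal systems

Part 1. Let `2 ≤ p < ∞`. For all `M, A`, all `t > 0` and all `ε > 0` there is `C` such that, for
every measure space of total mass at most `A`, every system (of any cardinality, complete or not)
which is orthogonal, normalized in `L_p` and bounded by `M`, every `f₀`, every run of the WCGA with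
weakness parameter `t` and all `m ≥ 1`, `n ≥ C m`, the residual satisfies
`‖f_n‖_p ≤ (1 + ε) σ_m(f₀)_p`.

Part 2. The same in every real normed space with modulus of smoothness `ρ(u) ≤ γ u^q`, `1 < q`, for
every system with `‖ψ_j‖ ≤ 1` and the lower `s`-estimate `(∑ |c_j|^s)^{1/s} ≤ B ‖∑ c_j ψ_j‖`,
`s ≥ q`, with `n ≥ C m^{q'/s'}` steps, `q' = q/(q-1)`, `1/s' = 1 - 1/s`, and an explicit `C`. For
`s = q` the number of steps is linear in `m`; there is never a logarithmic factor.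

Idea. Let `f₀ = ∑_{j ∈ Λ} c_j ψ_j + g`, `Γ_k` the part of `Λ` not picked after `k` steps. While
`‖f_k‖ > (1 + ε)‖g‖` one has `‖f_{k+1}‖ ≤ ‖f_k‖ (1 - κ (‖f_k‖ / ∑_{Γ_k} |c_j|)^{q'})` and
`(∑_{Γ_k} |c_j|^s)^{1/s} ≤ 2B ‖f_k‖`. Hölder's inequality with weights which are powers of
`w_0 + ... + w_k`, `w_k = κ (∑_{Γ_k} |c_j|)^{-q'}`, bounds the number of steps.
-/

set_option autoImplicit false

open MeasureTheory
open scoped ENNReal

namespace Pool.Agent.Results.MP_f28597_an.NearBestAllSystems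

open Pool.Agent.Y285.WG

/-- **Main result.** See the header of the file. -/
theorem result :
    (∀ (p : ℝ≥0∞) [Fact (1 ≤ p)], 2 ≤ p → p ≠ ⊤ → ∀ (M A t ε : ℝ), 0 < t → 0 < ε →
      ∃ C : ℕ, ∀ (X : Type) [MeasurableSpace X] (μ : Measure X) [IsFiniteMeasure μ],
        μ.real Set.univ ≤ A → ∀ (ι : Type) (ψ : ι → Lp ℝ p μ), IsUBOS M ψ →
        ∀ (f₀ : Lp ℝ p μ) (i : ℕ → ι) (r : ℕ → Lp ℝ p μ), IsRun normingF ψ t f₀ i r →
        ∀ m n : ℕ, 1 ≤ m → C * m ≤ n → ‖r n‖ ≤ (1 + ε) * sigma ψ m f₀) ∧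
    (∀ (V : Type) [NormedAddCommGroup V] [NormedSpace ℝ V] (q γ : ℝ), 1 < q → 0 < γ →
      SmoothOfPower V q γ → ∀ F : V → V → ℝ, IsNorming F → ∀ s : ℝ, q ≤ s →
      ∀ (ι : Type) (ψ : ι → V), (∀ j, ‖ψ j‖ ≤ 1) → ∀ B : ℝ, 0 < B → LowerEstimate ψ s B →
      ∀ t ε : ℝ, 0 < t → 0 < ε →
      ∀ (f₀ : V) (i : ℕ → ι) (r : ℕ → V), IsRun F ψ t f₀ i r →
        ∀ m n : ℕ, 1 ≤ m →
          stepConst q γ s B t ε * (m : ℝ) ^ (q / (q - 1) * (1 - 1 / s)) ≤ n →
          ‖r n‖ ≤ (1 + ε) * sigma ψ m f₀) := by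
  constructor
  · intro p _ hp2 hptop M A t ε ht hε
    set q : ℝ := p.toReal with hq
    have hq2 : 2 ≤ q := toReal_ge hp2 hptop
    by_cases hA : 0 ≤ A
    swap
    · refine ⟨0, ?_⟩
      intro X _ μ _ hμ
      exact absurd (measureReal_nonneg.trans hμ) hA
    refine ⟨⌈stepConst 2 (gam q) 2 (lowB q M A) t ε⌉₊, ?_⟩
    intro X _ μ _ hμ ι ψ hψ f₀ i r hrun m n hm hn
    have hγ : 0 < gam q := lt_of_lt_of_le one_pos (gam_ge hq2)
    apply abstract_main (q := 2) (by norm_num) hγ (smooth_Lp hp2 hptop)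
      (normingF_isNorming hp2 hptop) (s := 2) (by norm_num) (by norm_num) ψ
      (fun j => (hψ.normalized j).le) (lowB_pos hA) (lower_Lp hp2 hptop hμ hψ) ht hε f₀ i r hrun
      m hm n
    have h1 : ((2:ℝ) / (2 - 1) * (1 - 1 / 2)) = 1 := by norm_num
    rw [h1, Real.rpow_one]
    have h2 : stepConst 2 (gam q) 2 (lowB q M A) t ε * (m : ℝ) ≤
        (⌈stepConst 2 (gam q) 2 (lowB q M A) t ε⌉₊ : ℝ) * m :=
      mul_le_mul_of_nonneg_right (Nat.le_ceil _) (Nat.cast_nonneg _)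
    refine h2.trans ?_
    exact_mod_cast hn
  · intro V _ _ q γ hq hγ hsm F hF s hqs ι ψ hψ B hB hBe t ε ht hε f₀ i r hrun m n hm hn
    have hθ : 1 ≤ q / (q - 1) * (1 - 1 / s) := by
      have hq1 : 0 < q - 1 := by linarith
      have hs : 0 < s := by linarith
      rw [div_mul_eq_mul_div, le_div_iff₀ hq1]
      have h1 : q * (1 / s) ≤ 1 := by
        rw [mul_one_div, div_le_one hs]; exact hqs
      nlinarith
    exact abstract_main hq hγ hsm hF (by linarith) hθ ψ hψ hB hBe ht hε f₀ i r hrun m hm n hn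

end Pool.Agent.Results.MP_f28597_an.NearBestAllSystems
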